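import Pool.Agent.H.MP_5288f0_an.A

set_option autoImplicit false

namespace Pool.Agent.Results.MP_5288f0_an.Merge

open Set Filter Topology Pool.Agent.H.MP_5288f0_an

/-- The mass function of the density `ε⁻¹` on the interval from `a` to `a + ε`. -/
noncomputable def ramp (a ε ρ : ℝ) : ℝ := max 0 (min ((ρ - a) / ε) 1)

lemma wave {α b p y K : ℝ} (hα : 1 < α) (hb : b * (α - 1) = α) (p0 : 0 ≤ p) (K0 : 0 ≤ K) (x q : ℝ × ℝ)
    (h : Super (fun x => (min (max (b * p * (x.2 - y - p ^ (α - 1) * x.1)) 0) K) ^ b⁻¹) x q) :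
    q.1 + max q.2 0 ^ α * (min (max (b * p * (x.2 - y - p ^ (α - 1) * x.1)) 0) K) ^ b⁻¹ ≤ 0 := by
  have b0 : 0 < b := pos_of_mul_pos_left (by linarith : 0 < b * (α - 1)) (by linarith)
  have c0 : 0 ≤ p ^ (α - 1) := by positivity
  have h1 := dir h (-1) (-p ^ (α - 1)) (hasDerivAt_const _ _) rfl (.of_forall fun s => le_of_eq (by
    congr 3; ring))
  have h2 := dir h 0 1 (hasDerivAt_const _ _) rfl (eventually_mem_nhdsWithin.mono fun s (hs : 0 < s) => by
    gcongr <;> simp [hs.le])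
  obtain ⟨N, hN⟩ : ∃ N, N = min (max (b * p * (x.2 - y - p ^ (α - 1) * x.1)) 0) K := ⟨_, rfl⟩
  have N0 : 0 ≤ N := by rw [hN]; positivity
  rw [mul_zero, mul_one, zero_add] at h2
  rcases N0.eq_or_lt with e | e
  · rw [← hN, ← e, Real.zero_rpow (by positivity)]; nlinarith
  have h3 := dir h 0 (-1) ((((hasDerivAt_id (0 : ℝ)).const_mul (b * p)).const_sub N).rpow_const (p := b⁻¹)
    (.inl (by simpa using e.ne'))) (by simp [hN]) (by
      filter_upwards [((Continuous.tendsto' (f := fun s => N - b * p * s) (by fun_prop) 0 N (by simp)).mono_left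
        nhdsWithin_le_nhds).eventually_const_lt e, self_mem_nhdsWithin] with s h1 (h2 : 0 < s)
      refine Real.rpow_le_rpow h1.le ?_ (by positivity)
      have : 0 ≤ b * p * s := by positivity
      have := min_le_right (max (b * p * (x.2 - y - p ^ (α - 1) * x.1)) 0) K
      refine le_min ?_ (by simp only [id]; linarith)
      rcases le_total (b * p * (x.2 - y - p ^ (α - 1) * x.1)) 0 with l | l
      · rw [max_eq_right l, min_eq_left K0] at hN; linarith
      · rw [max_eq_left l] at hN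
        have := min_le_left (b * p * (x.2 - y - p ^ (α - 1) * x.1)) K
        exact le_max_of_le_left (by simp only [id]; linarith))
  rw [← hN, max_eq_left h2]
  have h4 : q.2 ≤ p * N ^ (b⁻¹ - 1) := by
    simp only [id, mul_zero, sub_zero, mul_one] at h3
    rw [show -(b * p) * b⁻¹ = -p by field_simp] at h3
    linarith
  have h5 := Real.rpow_le_rpow h2 h4 (by linarith : 0 ≤ α - 1)
  rw [Real.mul_rpow p0 (by positivity), ← Real.rpow_mul N0] at h5
  have h6 : N ^ ((b⁻¹ - 1) * (α - 1)) * N ^ b⁻¹ = 1 := by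
    rw [← Real.rpow_add e, show (b⁻¹ - 1) * (α - 1) + b⁻¹ = 0 by field_simp; linarith, Real.rpow_zero]
  have h7 : q.2 ^ α = q.2 * q.2 ^ (α - 1) := by
    rw [← Real.rpow_one_add' h2 (by linarith)]; simp
  have := mul_le_mul_of_nonneg_left (mul_le_mul_of_nonneg_right h5 (Real.rpow_nonneg N0 b⁻¹)) h2
  rw [mul_assoc (p ^ _), h6] at this
  rw [h7]; linarith

lemma vortex {α y δ M : ℝ} (hα : 1 < α) (d0 : 0 < δ) (M0 : 0 ≤ M) (x q : ℝ × ℝ) (x0 : 0 < x.1)
    (h : Sub (fun x => min (max (x.2 - y) 0 * (α * x.1 + δ) ^ (-α⁻¹)) M) x q) :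
    0 ≤ q.1 + max q.2 0 ^ α * min (max (x.2 - y) 0 * (α * x.1 + δ) ^ (-α⁻¹)) M := by
  have a0 : 0 < α := by linarith
  have t0 : 0 < α * x.1 + δ := by positivity
  rcases le_total M (max (x.2 - y) 0 * (α * x.1 + δ) ^ (-α⁻¹)) with l | l
  · have := dir' h (-1) 0 (hasDerivAt_const _ M) (min_eq_right l).symm (.of_forall fun s => min_le_right _ _)
    exact add_nonneg (by linarith) (by positivity)
  have h1 := dir' h (-1) 0 (((((((hasDerivAt_id (0 : ℝ)).mul_const (-1)).const_add x.1).const_mul α).add_const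
    δ).rpow_const (p := -α⁻¹) (.inl (by simpa using t0.ne'))).const_mul (max (x.2 - y) 0))
    (by simp [min_eq_left l]) (.of_forall fun s => (min_le_left _ _).trans_eq (by simp))
  simp only [id, zero_mul, add_zero, Real.rpow_sub_one t0.ne'] at h1
  rw [min_eq_left l]
  rcases le_or_gt (x.2 - y) 0 with e | e
  · simpa [max_eq_right e] using h1
  have h2 := dir' h 0 (-1) (((((hasDerivAt_id (0 : ℝ)).mul_const (-1)).const_add x.2).sub_const y).mul_const
    ((α * x.1 + δ) ^ (-α⁻¹))) (by rw [min_eq_left l, max_eq_left e.le]; simp) (by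
      filter_upwards [Ioo_mem_nhdsGT e] with s hs
      exact (min_le_left _ _).trans_eq (by rw [max_eq_left (by linarith [hs.2])]; simp))
  have h3 := Real.rpow_le_rpow (Real.rpow_nonneg t0.le (-α⁻¹)) (le_max_of_le_left (c := 0)
    (by linarith : _ ≤ q.2)) a0.le
  rw [← Real.rpow_mul t0.le, neg_mul, inv_mul_cancel₀ a0.ne', Real.rpow_neg_one] at h3
  have := mul_le_mul_of_nonneg_right h3 (by positivity : 0 ≤ max (x.2 - y) 0 * (α * x.1 + δ) ^ (-α⁻¹))
  have e2 : 1 * -1 * α * -α⁻¹ = 1 := by field_simp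
  have e3 : α * (1 * -1) * -α⁻¹ = 1 := by field_simp
  rw [e3, div_eq_mul_inv] at h1
  linarith

theorem result (α ρ₁ ρ₂ m₁ m₂ : ℝ) (hα : 1 < α) (h₁ : 0 < ρ₁) (h₂ : ρ₁ < ρ₂) (hm₁ : 0 < m₁)
    (hm₂ : 0 < m₂) : ∃ T > 0, ∀ m : ℝ → ℝ × ℝ → ℝ,
      (∀ᶠ ε in 𝓝[>] 0, IsSol α (fun ρ => m₁ * ramp ρ₁ ε ρ + m₂ * ramp ρ₂ ε ρ) (m ε)) →
      ∀ t, T ≤ t → ∀ ρ, 0 ≤ ρ → Tendsto (fun ε => m ε (t, ρ)) (𝓝[>] 0)
        (𝓝 (min (max (ρ - ρ₁) 0 * (α * t) ^ (-1 / α)) (m₁ + m₂))) := by
  have a0 : 0 < α := by linarith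
  obtain ⟨b, hb⟩ : ∃ b, b * (α - 1) = α := ⟨α / (α - 1), div_mul_cancel₀ _ (by linarith)⟩
  have b1 : 1 < b := by nlinarith
  obtain ⟨M, hM⟩ : ∃ M, M = m₁ + m₂ := ⟨_, rfl⟩
  have M0 : 0 < M := by linarith
  have tl := (((tendsto_rpow_neg_atTop (inv_pos.2 a0)).comp (tendsto_id.const_mul_atTop a0)).const_mul
    (b * M ^ (b - 1) * (ρ₂ - ρ₁))).eventually_lt_const (by simp; positivity : _ < m₁ ^ b)
  obtain ⟨T, hT⟩ := eventually_atTop.1 (tl.and (eventually_gt_atTop 0))
  refine ⟨T, (hT T le_rfl).2, fun m hm t ht ρ r0 => ?_⟩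
  obtain ⟨h1, t0⟩ := hT t ht
  simp only [Function.comp, id] at h1
  rw [neg_div, one_div, ← hM]
  obtain ⟨l, hl⟩ : ∃ l, l = (α * t) ^ (-α⁻¹) := ⟨_, rfl⟩
  have l0 : 0 < l := by rw [hl]; positivity
  obtain ⟨v, hv⟩ : ∃ v, v = min (max (ρ - ρ₁) 0 * l) M := ⟨_, rfl⟩
  have v0 : 0 ≤ v := by rw [hv]; positivity
  have vM : v ≤ M := hv ▸ min_le_right _ _
  rw [← hl] at h1 ⊢
  let W := fun (ε : ℝ) (x : ℝ × ℝ) => (min (max (b * (v ^ (b - 1) * l) * (x.2 - (ρ₁ + ε) -
    (v ^ (b - 1) * l) ^ (α - 1) * x.1)) 0) (M ^ b)) ^ b⁻¹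
  let V := fun (ε : ℝ) (x : ℝ × ℝ) => min (max (x.2 - ρ₁) 0 * (α * x.1 + (ε / M) ^ α) ^ (-α⁻¹)) M
  have bi : ∀ z : ℝ, 0 ≤ z → (z ^ b) ^ b⁻¹ = z := fun z h => Real.rpow_rpow_inv h (by linarith)
  have p0 : 0 ≤ v ^ (b - 1) * l := by positivity
  have W0 : ∀ ε x, 0 ≤ W ε x := fun ε x => by simp only [W]; positivity
  have Wc : Continuous fun z : ℝ × ℝ × ℝ => W z.1 z.2 :=
    Continuous.rpow_const (by fun_prop) fun _ => .inr (by positivity)
  have Wl : ∀ ε x z, 0 ≤ z → b * (v ^ (b - 1) * l) * (x.2 - (ρ₁ + ε) - (v ^ (b - 1) * l) ^ (α - 1) * x.1) ≤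
      z ^ b → W ε x ≤ z := fun ε x z z0 h => (Real.rpow_le_rpow (by positivity) ((min_le_left _ _).trans
        (max_le h (by positivity))) (by positivity)).trans_eq (bi z z0)
  have r1 : ∀ a ε ρ, 0 < ε → a + ε ≤ ρ → ramp a ε ρ = 1 := fun a ε ρ e0 h => by
    rw [ramp, min_eq_right ((one_le_div e0).2 (by linarith))]; simp
  have r0' : ∀ a ε ρ, 0 ≤ ramp a ε ρ := fun _ _ _ => le_max_left _ _
  have key : ∀ᶠ ε in 𝓝[>] 0, min (W ε (t, ρ)) v ≤ m ε (t, ρ) ∧ m ε (t, ρ) ≤ V ε (t, ρ) := by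
    filter_upwards [hm, self_mem_nhdsWithin] with ε ⟨k1, k2, k3, k4, k5⟩ (e0 : 0 < ε)
    have lo := compare α a0 (W ε) (m ε) (Wc.comp (by fun_prop : Continuous fun x => (ε, x))).continuousOn k1
      (fun x _ => W0 ε x) (fun x q _ _ => wave hα hb p0 (by positivity) x q) k3 (by
        rintro ⟨s, r⟩ ⟨s0 : 0 ≤ s, r0 : 0 ≤ r⟩ (rfl | rfl)
        · rw [k4 r r0]
          beta_reduce
          have := mul_nonneg hm₁.le (r0' ρ₁ ε r)
          have := mul_nonneg hm₂.le (r0' ρ₂ ε r)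
          rcases le_total r (ρ₁ + ε) with c | c
          · exact Wl _ _ _ (by positivity) ((mul_nonpos_of_nonneg_of_nonpos (by positivity)
              (by simpa using c)).trans (by positivity))
          rw [r1 _ _ _ e0 c]
          rcases le_total r (ρ₂ + ε) with c | c
          · refine (Wl _ _ _ hm₁.le (le_trans ?_ h1.le)).trans (by linarith)
            calc _ ≤ b * (M ^ (b - 1) * l) * (ρ₂ - ρ₁) :=
                  (mul_le_mul_of_nonneg_left (c := ρ₂ - ρ₁) (by simp only [mul_zero]; linarith)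
                    (by positivity)).trans
                    (by have := sub_pos.2 h₂; have := sub_pos.2 b1; gcongr)
              _ = _ := by ring
          · rw [r1 _ _ _ e0 c]
            exact (Real.rpow_le_rpow (by positivity) (min_le_right _ _) (by positivity)).trans_eq
              ((bi M M0.le).trans (by linarith))
        · rw [k5 s s0]
          refine Wl _ _ _ le_rfl ((mul_nonpos_of_nonneg_of_nonpos (by positivity) ?_).trans (by positivity))
          have : 0 ≤ (v ^ (b - 1) * l) ^ (α - 1) * s := by positivity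
          simp only; linarith)
    refine ⟨(min_le_left _ _).trans (lo _ ⟨t0.le, r0⟩), compare α a0 (m ε) (V ε) k1 ?_
      (fun x hx => (W0 ε x).trans (lo x hx)) k2 (fun x q x0 _ => vortex hα (by positivity) M0.le x q x0) ?_
        _ ⟨t0.le, r0⟩⟩
    · refine ContinuousOn.inf (.mul (by fun_prop) (.rpow_const (by fun_prop) fun x hx => .inl ?_)) (by fun_prop)
      have : 0 ≤ x.1 := hx.1
      positivity
    rintro ⟨s, r⟩ ⟨s0 : 0 ≤ s, r0 : 0 ≤ r⟩ (rfl | rfl)
    · have : ∀ a, ρ₁ ≤ a → ramp a ε r ≤ min (max (r - ρ₁) 0 / ε) 1 := fun a h => max_le (by positivity)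
        (min_le_min_right _ (by gcongr; exact le_max_of_le_left (by linarith)))
      rw [k4 r r0]
      refine (add_le_add (mul_le_mul_of_nonneg_left (this _ le_rfl) hm₁.le)
        (mul_le_mul_of_nonneg_left (this _ h₂.le) hm₂.le)).trans_eq ?_
      simp only [V, mul_zero, zero_add]
      rw [← add_mul, ← hM, mul_min_of_nonneg _ _ M0.le, Real.rpow_neg (by positivity),
        Real.rpow_rpow_inv (by positivity) a0.ne']
      congr 1 <;> field_simp
    · rw [k5 s s0]; simp only [V]; positivity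
  refine tendsto_of_tendsto_of_tendsto_of_le_of_le' (Tendsto.mono_left ?_ nhdsWithin_le_nhds)
    (Tendsto.mono_left ?_ nhdsWithin_le_nhds) (key.mono fun _ h => h.1) (key.mono fun _ h => h.2)
  · refine Continuous.tendsto' ((Wc.comp (by fun_prop : Continuous fun ε => (ε, t, ρ))).min continuous_const) _ _
      ((min_eq_right ?_).trans hv)
    rcases v0.eq_or_lt with e | e
    · exact e ▸ W0 _ _
    refine (bi v v0).ge.trans (Real.rpow_le_rpow (by positivity) (le_min (le_max_of_le_left ?_)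
      (by gcongr)) (by positivity))
    have e1 : v ≤ (ρ - ρ₁) * l := by
      rcases le_max_iff.1 ((div_le_iff₀ l0).2 (hv.trans_le (min_le_left _ _))) with c | c
      · rwa [div_le_iff₀ l0] at c
      · exact absurd c (not_le.2 (by positivity))
    have e2 : l ^ (α - 1) * l * t = α⁻¹ := by
      rw [← Real.rpow_add_one l0.ne', sub_add_cancel, hl, ← Real.rpow_mul (by positivity), neg_mul,
        inv_mul_cancel₀ a0.ne', Real.rpow_neg_one]; field_simp
    rw [Real.mul_rpow (by positivity) l0.le, ← Real.rpow_mul v0, show (b - 1) * (α - 1) = 1 by linarith,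
      Real.rpow_one, ← sub_add_cancel b 1, Real.rpow_add_one e.ne', sub_add_cancel]
    calc _ = b * v ^ (b - 1) * (v - v * α⁻¹) := by field_simp; linear_combination -hb
      _ ≤ b * v ^ (b - 1) * ((ρ - ρ₁) * l - v * α⁻¹) := by gcongr
      _ = _ := by rw [← e2]; ring
  · refine ContinuousAt.tendsto (f := fun ε => V ε (t, ρ)) ?_ |>.trans_eq ?_
    · refine .inf (.mul (by fun_prop) (.rpow_const (.add (by fun_prop) (.rpow_const (by fun_prop)
        (.inr a0.le))) (.inl ?_))) (by fun_prop)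
      simp [a0.ne', t0.ne']
    · simp [V, a0.ne', hl]

end Pool.Agent.Results.MP_5288f0_an.Merge
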